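import Mathlib

/-!
# Core algebra for the binarization problem (`MP_c084cb_lc`, case `N = 1`)

`D` is the covariance of two real functions `P`, `Q` under a finite measure on a `4 × 4` table, in the
normalisation `P 0 = Q 0 = -1`, `P 1 = Q 1 = 1`.  The measure has the mass `α/8` at `(0,0)`, `(1,1)`,
`α/4` at `(2,2)`, `β/8` at `(0,1)`, `(1,0)`, `β/4` at `(3,3)`, and `a1, a2, a3, a4, b1, b2, b3, b4` at
`(0,2), (1,2), (0,3), (1,3), (2,0), (2,1), (3,0), (3,1)`.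
-/

namespace Pool.Agent.N226.BI

/-- Covariance (times the square of the mass). -/
noncomputable def D (α β P2 P3 Q2 Q3 a1 a2 a3 a4 b1 b2 b3 b4 : ℝ) : ℝ :=
  (α / 2 + β / 2 + (a1 + a2 + a3 + a4 + b1 + b2 + b3 + b4)) *
    (α / 4 - β / 4 + α * P2 * Q2 / 4 + β * P3 * Q3 / 4 + Q2 * (a2 - a1) + Q3 * (a4 - a3)
      + P2 * (b2 - b1) + P3 * (b4 - b3)) -
  (α * P2 / 4 + β * P3 / 4 + (a2 + a4 - a1 - a3) + P2 * (b1 + b2) + P3 * (b3 + b4)) *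
    (α * Q2 / 4 + β * Q3 / 4 + (b2 + b4 - b1 - b3) + Q2 * (a1 + a2) + Q3 * (a3 + a4))

/-- Masses of the free cells in `[0, A]` for which the covariance vanishes. -/
def Sol (A α β P2 P3 Q2 Q3 : ℝ) : Prop :=
  ∃ a1 a2 a3 a4 b1 b2 b3 b4 : ℝ, (0 ≤ a1 ∧ a1 ≤ A) ∧ (0 ≤ a2 ∧ a2 ≤ A) ∧ (0 ≤ a3 ∧ a3 ≤ A) ∧
    (0 ≤ a4 ∧ a4 ≤ A) ∧ (0 ≤ b1 ∧ b1 ≤ A) ∧ (0 ≤ b2 ∧ b2 ≤ A) ∧ (0 ≤ b3 ∧ b3 ≤ A) ∧
    (0 ≤ b4 ∧ b4 ≤ A) ∧ D α β P2 P3 Q2 Q3 a1 a2 a3 a4 b1 b2 b3 b4 = 0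

theorem sol_of_le {A α β P2 P3 Q2 Q3 : ℝ} (a1 a2 a3 a4 b1 b2 b3 b4 : ℝ)
    (h1 : 0 ≤ a1 ∧ a1 ≤ A) (h2 : 0 ≤ a2 ∧ a2 ≤ A) (h3 : 0 ≤ a3 ∧ a3 ≤ A) (h4 : 0 ≤ a4 ∧ a4 ≤ A)
    (g1 : 0 ≤ b1 ∧ b1 ≤ A) (g2 : 0 ≤ b2 ∧ b2 ≤ A) (g3 : 0 ≤ b3 ∧ b3 ≤ A) (g4 : 0 ≤ b4 ∧ b4 ≤ A)
    (hA : 0 ≤ D α β P2 P3 Q2 Q3 0 0 0 0 0 0 0 0)
    (hB : D α β P2 P3 Q2 Q3 a1 a2 a3 a4 b1 b2 b3 b4 ≤ 0) : Sol A α β P2 P3 Q2 Q3 := by
  have hc : Continuous (fun t : ℝ => D α β P2 P3 Q2 Q3 (t * a1) (t * a2) (t * a3) (t * a4)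
      (t * b1) (t * b2) (t * b3) (t * b4)) := by
    unfold D
    fun_prop
  have h0 : (0 : ℝ) ∈ Set.Icc (D α β P2 P3 Q2 Q3 (1 * a1) (1 * a2) (1 * a3) (1 * a4)
      (1 * b1) (1 * b2) (1 * b3) (1 * b4)) (D α β P2 P3 Q2 Q3 (0 * a1) (0 * a2) (0 * a3) (0 * a4)
      (0 * b1) (0 * b2) (0 * b3) (0 * b4)) := by
    simp only [one_mul, zero_mul]
    exact ⟨hB, hA⟩
  obtain ⟨t, ht, hD⟩ := intermediate_value_Icc' (zero_le_one (α := ℝ)) hc.continuousOn h0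
  have key : ∀ x : ℝ, 0 ≤ x ∧ x ≤ A → 0 ≤ t * x ∧ t * x ≤ A := fun x hx =>
    ⟨mul_nonneg ht.1 hx.1, (mul_le_of_le_one_left hx.1 ht.2).trans hx.2⟩
  exact ⟨_, _, _, _, _, _, _, _, key _ h1, key _ h2, key _ h3, key _ h4, key _ g1, key _ g2,
    key _ g3, key _ g4, hD⟩

theorem sol_of_ge {A α β P2 P3 Q2 Q3 : ℝ} (a1 a2 a3 a4 b1 b2 b3 b4 : ℝ)
    (h1 : 0 ≤ a1 ∧ a1 ≤ A) (h2 : 0 ≤ a2 ∧ a2 ≤ A) (h3 : 0 ≤ a3 ∧ a3 ≤ A) (h4 : 0 ≤ a4 ∧ a4 ≤ A)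
    (g1 : 0 ≤ b1 ∧ b1 ≤ A) (g2 : 0 ≤ b2 ∧ b2 ≤ A) (g3 : 0 ≤ b3 ∧ b3 ≤ A) (g4 : 0 ≤ b4 ∧ b4 ≤ A)
    (hA : D α β P2 P3 Q2 Q3 0 0 0 0 0 0 0 0 ≤ 0)
    (hB : 0 ≤ D α β P2 P3 Q2 Q3 a1 a2 a3 a4 b1 b2 b3 b4) : Sol A α β P2 P3 Q2 Q3 := by
  have hc : Continuous (fun t : ℝ => D α β P2 P3 Q2 Q3 (t * a1) (t * a2) (t * a3) (t * a4)
      (t * b1) (t * b2) (t * b3) (t * b4)) := by
    unfold D
    fun_prop
  have h0 : (0 : ℝ) ∈ Set.Icc (D α β P2 P3 Q2 Q3 (0 * a1) (0 * a2) (0 * a3) (0 * a4)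
      (0 * b1) (0 * b2) (0 * b3) (0 * b4)) (D α β P2 P3 Q2 Q3 (1 * a1) (1 * a2) (1 * a3) (1 * a4)
      (1 * b1) (1 * b2) (1 * b3) (1 * b4)) := by
    simp only [one_mul, zero_mul]
    exact ⟨hA, hB⟩
  obtain ⟨t, ht, hD⟩ := intermediate_value_Icc (zero_le_one (α := ℝ)) hc.continuousOn h0
  have key : ∀ x : ℝ, 0 ≤ x ∧ x ≤ A → 0 ≤ t * x ∧ t * x ≤ A := fun x hx =>
    ⟨mul_nonneg ht.1 hx.1, (mul_le_of_le_one_left hx.1 ht.2).trans hx.2⟩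
  exact ⟨_, _, _, _, _, _, _, _, key _ h1, key _ h2, key _ h3, key _ h4, key _ g1, key _ g2,
    key _ g3, key _ g4, hD⟩

/-- Symmetry: `P` and `Q` both change sign. -/
theorem Sol.neg {A α β P2 P3 Q2 Q3 : ℝ} (h : Sol A α β P2 P3 Q2 Q3) :
    Sol A α β (-P2) (-P3) (-Q2) (-Q3) := by
  obtain ⟨a1, a2, a3, a4, b1, b2, b3, b4, h1, h2, h3, h4, g1, g2, g3, g4, hD⟩ := h
  refine ⟨a2, a1, a4, a3, b2, b1, b4, b3, h2, h1, h4, h3, g2, g1, g4, g3, ?_⟩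
  rw [← hD]
  unfold D
  ring

/-- Symmetry: `Q` changes sign, the symbols `2` and `3` are exchanged. -/
theorem Sol.flip {A α β P2 P3 Q2 Q3 : ℝ} (h : Sol A α β P2 P3 Q2 Q3) :
    Sol A β α P3 P2 (-Q3) (-Q2) := by
  obtain ⟨a1, a2, a3, a4, b1, b2, b3, b4, h1, h2, h3, h4, g1, g2, g3, g4, hD⟩ := h
  refine ⟨a3, a4, a1, a2, b4, b3, b2, b1, h3, h4, h1, h2, g4, g3, g2, g1, ?_⟩
  rw [← neg_eq_zero, ← hD]
  unfold D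
  ring

/-- The bad position of `(P2, Q2)` and `(P3, Q3)`: both near `(1, -1)`. -/
def Bad (P2 P3 Q2 Q3 : ℝ) : Prop :=
  (9 / 10 ≤ P2 ∧ P2 ≤ 11 / 10 ∧ -(11 / 10) ≤ Q2 ∧ Q2 ≤ -(9 / 10)) ∧
  (3 / 4 ≤ P3 ∧ P3 ≤ 5 / 4 ∧ -(5 / 4) ≤ Q3 ∧ Q3 ≤ -(3 / 4))

/-- `(P2, Q2)` near `(1, -1)`, `(P3, Q3)` not. -/
theorem solA_near {P2 P3 Q2 Q3 : ℝ}
    (h : 9 / 10 ≤ P2 ∧ P2 ≤ 11 / 10 ∧ -(11 / 10) ≤ Q2 ∧ Q2 ≤ -(9 / 10))
    (hb : ¬ Bad P2 P3 Q2 Q3) : Sol 16 1 0 P2 P3 Q2 Q3 := by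
  obtain ⟨h1, h2, h3, h4⟩ := h
  have hD0 : 0 ≤ D 1 0 P2 P3 Q2 Q3 0 0 0 0 0 0 0 0 := by
    unfold D
    nlinarith [mul_nonneg (sub_nonneg.2 h1) (sub_nonneg.2 h4),
      mul_nonneg (sub_nonneg.2 h2) (sub_nonneg.2 h3)]
  have z : (0 : ℝ) ≤ 0 ∧ (0 : ℝ) ≤ 16 := by norm_num
  have s : (0 : ℝ) ≤ 16 ∧ (16 : ℝ) ≤ 16 := by norm_num
  by_cases c1 : 0 ≤ Q3
  · refine sol_of_le 0 0 16 0 0 0 0 0 z z s z z z z z hD0 ?_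
    unfold D
    nlinarith [mul_nonneg (sub_nonneg.2 h1) (sub_nonneg.2 h4),
      mul_nonneg (sub_nonneg.2 h2) (sub_nonneg.2 h3), mul_nonneg (sub_nonneg.2 h1) c1,
      mul_nonneg (sub_nonneg.2 h4) c1]
  by_cases c2 : P3 ≤ 0
  · refine sol_of_le 0 0 0 0 0 0 0 16 z z z z z z z s hD0 ?_
    unfold D
    nlinarith [mul_nonneg (sub_nonneg.2 h1) (sub_nonneg.2 h4),
      mul_nonneg (sub_nonneg.2 h2) (sub_nonneg.2 h3), mul_nonneg (sub_nonneg.2 h4) (neg_nonneg.2 c2)]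
  push Not at c1 c2
  by_cases c3 : Q3 < -(5 / 4)
  · refine sol_of_le 0 0 0 16 0 0 0 0 z z z s z z z z hD0 ?_
    unfold D
    nlinarith [mul_nonneg (sub_nonneg.2 h1) (sub_nonneg.2 h4),
      mul_nonneg (sub_nonneg.2 h2) (sub_nonneg.2 h3), mul_nonneg (sub_nonneg.2 h2)
      (sub_nonneg.2 c3.le), mul_nonneg (sub_nonneg.2 h1) (sub_nonneg.2 c3.le)]
  by_cases c4 : 5 / 4 < P3
  · refine sol_of_le 0 0 0 0 0 0 16 0 z z z z z z s z hD0 ?_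
    unfold D
    nlinarith [mul_nonneg (sub_nonneg.2 h1) (sub_nonneg.2 h4),
      mul_nonneg (sub_nonneg.2 h2) (sub_nonneg.2 h3), mul_nonneg (sub_nonneg.2 h3)
      (sub_nonneg.2 c4.le), mul_nonneg (sub_nonneg.2 h4) (sub_nonneg.2 c4.le)]
  push Not at c3 c4
  by_cases c5 : -(3 / 4) < Q3
  · refine sol_of_le 0 16 16 0 0 0 0 0 z s s z z z z z hD0 ?_
    unfold D
    nlinarith [mul_nonneg (sub_nonneg.2 h1) (sub_nonneg.2 h4),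
      mul_nonneg (sub_nonneg.2 h2) (sub_nonneg.2 h3), mul_nonneg (sub_nonneg.2 h1)
      (sub_nonneg.2 c5.le), mul_nonneg (sub_nonneg.2 h1) (neg_nonneg.2 c1.le)]
  by_cases c6 : P3 < 3 / 4
  · refine sol_of_le 0 0 0 0 16 0 0 16 z z z z s z z s hD0 ?_
    unfold D
    nlinarith [mul_nonneg (sub_nonneg.2 h1) (sub_nonneg.2 h4),
      mul_nonneg (sub_nonneg.2 h2) (sub_nonneg.2 h3), mul_nonneg (sub_nonneg.2 h4)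
      (sub_nonneg.2 c6.le), mul_nonneg (sub_nonneg.2 h4) c2.le]
  push Not at c5 c6
  exact absurd ⟨⟨h1, h2, h3, h4⟩, c6, c4, c3, c5⟩ hb


theorem solA {P2 P3 Q2 Q3 : ℝ} (hb : ¬ Bad P2 P3 Q2 Q3) (hb' : ¬ Bad (-P2) (-P3) (-Q2) (-Q3)) :
    Sol 16 1 0 P2 P3 Q2 Q3 := by
  have z : (0 : ℝ) ≤ 0 ∧ (0 : ℝ) ≤ 16 := by norm_num
  have s : (0 : ℝ) ≤ 16 ∧ (16 : ℝ) ≤ 16 := by norm_num
  have u : (0 : ℝ) ≤ 1 ∧ (1 : ℝ) ≤ 16 := by norm_num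
  rcases lt_or_ge (P2 * Q2) (-2) with h0 | h0
  · have e : (0 : ℝ) ≤ 1 / 8 ∧ (1 / 8 : ℝ) ≤ 16 := by norm_num
    refine sol_of_ge (1 / 8) (1 / 8) 0 0 (1 / 8) (1 / 8) 0 0 e e z z e e z z ?_ ?_
    · unfold D
      nlinarith
    · unfold D
      nlinarith
  have hD0 : 0 ≤ D 1 0 P2 P3 Q2 Q3 0 0 0 0 0 0 0 0 := by
    unfold D
    nlinarith
  rcases le_or_gt (1 / 4) (P2 * Q2) with h1 | h1
  · have e : (0 : ℝ) ≤ 9 / 8 ∧ (9 / 8 : ℝ) ≤ 16 := by norm_num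
    refine sol_of_le (9 / 8) (9 / 8) 0 0 (9 / 8) (9 / 8) 0 0 e e z z e e z z hD0 ?_
    unfold D
    nlinarith
  rcases le_or_gt 2 Q2 with h2 | h2
  · refine sol_of_le 1 0 0 0 0 0 0 0 u z z z z z z z hD0 ?_
    unfold D
    nlinarith
  rcases le_or_gt Q2 (-2) with h3 | h3
  · refine sol_of_le 0 1 0 0 0 0 0 0 z u z z z z z z hD0 ?_
    unfold D
    nlinarith
  rcases le_or_gt 2 P2 with h4 | h4
  · refine sol_of_le 0 0 0 0 1 0 0 0 z z z z u z z z hD0 ?_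
    unfold D
    nlinarith
  rcases le_or_gt P2 (-2) with h5 | h5
  · refine sol_of_le 0 0 0 0 0 1 0 0 z z z z z u z z hD0 ?_
    unfold D
    nlinarith
  rcases le_or_gt (1 / 10) ((1 - P2) * (1 - Q2)) with h6 | h6
  · refine sol_of_le 0 16 0 0 0 16 0 0 z s z z z s z z hD0 ?_
    unfold D
    nlinarith
  rcases le_or_gt (1 / 10) ((1 + P2) * (1 + Q2)) with h7 | h7
  · refine sol_of_le 16 0 0 0 16 0 0 0 s z z z s z z z hD0 ?_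
    unfold D
    nlinarith
  have h8 : P2 * Q2 < -(9 / 10) := by nlinarith
  rcases lt_or_ge 0 P2 with h9 | h9
  · have h10 : Q2 < 0 := by
      by_contra hq
      push Not at hq
      nlinarith [mul_nonneg h9.le hq]
    have h11 : 9 / 10 ≤ P2 := by nlinarith
    have h12 : Q2 ≤ -(9 / 10) := by nlinarith
    rcases lt_or_ge (11 / 10) P2 with h13 | h13
    · refine sol_of_le 0 0 0 0 16 0 0 0 z z z z s z z z hD0 ?_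
      unfold D
      nlinarith
    rcases lt_or_ge Q2 (-(11 / 10)) with h14 | h14
    · refine sol_of_le 0 16 0 0 0 0 0 0 z s z z z z z z hD0 ?_
      unfold D
      nlinarith
    exact solA_near ⟨h11, h13, h14, h12⟩ hb
  · have h10 : 0 < Q2 := by
      by_contra hq
      push Not at hq
      nlinarith [mul_nonneg_of_nonpos_of_nonpos h9 hq]
    have h11 : P2 ≤ -(9 / 10) := by nlinarith
    have h12 : 9 / 10 ≤ Q2 := by nlinarith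
    rcases lt_or_ge P2 (-(11 / 10)) with h13 | h13
    · refine sol_of_le 0 0 0 0 0 16 0 0 z z z z z s z z hD0 ?_
      unfold D
      nlinarith
    rcases lt_or_ge (11 / 10) Q2 with h14 | h14
    · refine sol_of_le 16 0 0 0 0 0 0 0 s z z z z z z z hD0 ?_
      unfold D
      nlinarith
    have := (solA_near (P2 := -P2) (P3 := -P3) (Q2 := -Q2) (Q3 := -Q3)
      ⟨by linarith, by linarith, by linarith, by linarith⟩ hb').neg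
    simpa only [neg_neg] using this

/-- In the bad position the two groups are merged. -/
theorem sol_merge {P2 P3 Q2 Q3 : ℝ} (hb : Bad P2 P3 Q2 Q3) : Sol 16 1 1 P2 P3 Q2 Q3 := by
  obtain ⟨⟨h1, h2, h3, h4⟩, g1, g2, g3, g4⟩ := hb
  have z : (0 : ℝ) ≤ 0 ∧ (0 : ℝ) ≤ 16 := by norm_num
  have u : (0 : ℝ) ≤ 1 ∧ (1 : ℝ) ≤ 16 := by norm_num
  refine sol_of_ge 1 0 0 0 0 1 0 0 u z z z z u z z ?_ ?_
  · unfold D
    nlinarith [mul_nonneg (sub_nonneg.2 h1) (sub_nonneg.2 h4),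
      mul_nonneg (sub_nonneg.2 g1) (sub_nonneg.2 g4), mul_nonneg (sub_nonneg.2 h1) (sub_nonneg.2 g3),
      mul_nonneg (sub_nonneg.2 g1) (sub_nonneg.2 h3)]
  · unfold D
    nlinarith [mul_nonneg (sub_nonneg.2 h1) (sub_nonneg.2 h4),
      mul_nonneg (sub_nonneg.2 h2) (sub_nonneg.2 h3),
      mul_nonneg (sub_nonneg.2 g2) (sub_nonneg.2 g3), mul_nonneg (sub_nonneg.2 h2) (sub_nonneg.2 g4),
      mul_nonneg (sub_nonneg.2 g2) (sub_nonneg.2 h4)]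

/-- **Core theorem.** Either both groups can be neutralised separately, or the merged group can. -/
theorem core (P2 P3 Q2 Q3 : ℝ) :
    (Sol 16 1 0 P2 P3 Q2 Q3 ∧ Sol 16 0 1 P2 P3 Q2 Q3) ∨ Sol 16 1 1 P2 P3 Q2 Q3 := by
  by_cases c1 : Bad P2 P3 Q2 Q3
  · exact Or.inr (sol_merge c1)
  by_cases c2 : Bad (-P2) (-P3) (-Q2) (-Q3)
  · right
    have := (sol_merge c2).neg
    simpa only [neg_neg] using this
  by_cases c3 : Bad P3 P2 (-Q3) (-Q2)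
  · right
    have := (sol_merge c3).flip
    simpa only [neg_neg] using this
  by_cases c4 : Bad (-P3) (-P2) (-(-Q3)) (-(-Q2))
  · right
    have := (sol_merge c4).flip.neg
    simpa only [neg_neg] using this
  left
  refine ⟨solA c1 c2, ?_⟩
  have := (solA c3 c4).flip
  simpa only [neg_neg] using this

end Pool.Agent.N226.BI
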