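import Pool.Agent.N226.BI.Core

/-!
# The core theorem in raw coordinates
-/

namespace Pool.Agent.N226.BI

open Finset

/-- Covariance (times the square of the mass) of `p x`, `q y` under the mass `c x y`. -/
noncomputable def cov (c : Fin 4 → Fin 4 → ℝ) (p q : Fin 4 → ℝ) : ℝ :=
  (∑ x, ∑ y, c x y) * (∑ x, ∑ y, c x y * p x * q y) -
    (∑ x, ∑ y, c x y * p x) * (∑ x, ∑ y, c x y * q y)

/-- The mass of a group: `α`, `β` are the parts of the symbols `0`, `1`, and `E` the free masses. -/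
noncomputable def mass (α β : ℝ) (E : Fin 4 → Fin 4 → ℝ) (x y : Fin 4) : ℝ :=
  if x < 2 ∧ y < 2 then (if x = y then α / 8 else β / 8)
  else if 2 ≤ x ∧ 2 ≤ y then (if x = y then (if x = 2 then α / 4 else β / 4) else 0)
  else E x y

/-- Free masses in `[0, 16]` for which the covariance vanishes. -/
def Raw (α β : ℝ) (p q : Fin 4 → ℝ) : Prop :=
  ∃ E : Fin 4 → Fin 4 → ℝ, (∀ x y, 0 ≤ E x y ∧ E x y ≤ 16) ∧ cov (mass α β E) p q = 0

theorem cov_mass (α β : ℝ) (E : Fin 4 → Fin 4 → ℝ) (p q : Fin 4 → ℝ) :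
    cov (mass α β E) p q =
    (α / 2 + β / 2 + (E 0 2 + E 1 2 + E 0 3 + E 1 3 + E 2 0 + E 2 1 + E 3 0 + E 3 1)) *
    (α / 8 * (p 0 * q 0 + p 1 * q 1) + β / 8 * (p 0 * q 1 + p 1 * q 0) + α / 4 * (p 2 * q 2)
      + β / 4 * (p 3 * q 3) + E 0 2 * p 0 * q 2 + E 1 2 * p 1 * q 2 + E 0 3 * p 0 * q 3
      + E 1 3 * p 1 * q 3 + E 2 0 * p 2 * q 0 + E 2 1 * p 2 * q 1 + E 3 0 * p 3 * q 0
      + E 3 1 * p 3 * q 1) -
    (α / 8 * (p 0 + p 1) + β / 8 * (p 0 + p 1) + α / 4 * p 2 + β / 4 * p 3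
      + (E 0 2 + E 0 3) * p 0 + (E 1 2 + E 1 3) * p 1 + (E 2 0 + E 2 1) * p 2
      + (E 3 0 + E 3 1) * p 3) *
    (α / 8 * (q 0 + q 1) + β / 8 * (q 0 + q 1) + α / 4 * q 2 + β / 4 * q 3
      + (E 2 0 + E 3 0) * q 0 + (E 2 1 + E 3 1) * q 1 + (E 0 2 + E 1 2) * q 2
      + (E 0 3 + E 1 3) * q 3) := by
  have h00 : mass α β E 0 0 = α / 8 := by simp [mass]
  have h01 : mass α β E 0 1 = β / 8 := by simp [mass]
  have h10 : mass α β E 1 0 = β / 8 := by simp [mass]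
  have h11 : mass α β E 1 1 = α / 8 := by simp [mass]
  have h22 : mass α β E 2 2 = α / 4 := by simp [mass]
  have h33 : mass α β E 3 3 = β / 4 := by
    unfold mass
    rw [if_neg (by decide), if_pos (by decide), if_pos rfl, if_neg (by decide)]
  have h23 : mass α β E 2 3 = 0 := by
    unfold mass
    rw [if_neg (by decide), if_pos (by decide), if_neg (by decide)]
  have h32 : mass α β E 3 2 = 0 := by
    unfold mass
    rw [if_neg (by decide), if_pos (by decide), if_neg (by decide)]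
  have h02 : mass α β E 0 2 = E 0 2 := by
    unfold mass
    rw [if_neg (by decide), if_neg (by decide)]
  have h03 : mass α β E 0 3 = E 0 3 := by
    unfold mass
    rw [if_neg (by decide), if_neg (by decide)]
  have h12 : mass α β E 1 2 = E 1 2 := by
    unfold mass
    rw [if_neg (by decide), if_neg (by decide)]
  have h13 : mass α β E 1 3 = E 1 3 := by
    unfold mass
    rw [if_neg (by decide), if_neg (by decide)]
  have h20 : mass α β E 2 0 = E 2 0 := by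
    unfold mass
    rw [if_neg (by decide), if_neg (by decide)]
  have h21 : mass α β E 2 1 = E 2 1 := by
    unfold mass
    rw [if_neg (by decide), if_neg (by decide)]
  have h30 : mass α β E 3 0 = E 3 0 := by
    unfold mass
    rw [if_neg (by decide), if_neg (by decide)]
  have h31 : mass α β E 3 1 = E 3 1 := by
    unfold mass
    rw [if_neg (by decide), if_neg (by decide)]
  unfold cov
  simp only [Fin.sum_univ_four, h00, h01, h10, h11, h22, h33, h23, h32, h02, h03, h12, h13, h20,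
    h21, h30, h31]
  ring

/-- The table of the free masses. -/
def tab (a1 a2 a3 a4 b1 b2 b3 b4 : ℝ) : Fin 4 → Fin 4 → ℝ :=
  ![![0, 0, a1, a3], ![0, 0, a2, a4], ![b1, b2, 0, 0], ![b3, b4, 0, 0]]

theorem tab_mem {A a1 a2 a3 a4 b1 b2 b3 b4 : ℝ} (hA : 0 ≤ A)
    (h1 : 0 ≤ a1 ∧ a1 ≤ A) (h2 : 0 ≤ a2 ∧ a2 ≤ A) (h3 : 0 ≤ a3 ∧ a3 ≤ A) (h4 : 0 ≤ a4 ∧ a4 ≤ A)
    (g1 : 0 ≤ b1 ∧ b1 ≤ A) (g2 : 0 ≤ b2 ∧ b2 ≤ A) (g3 : 0 ≤ b3 ∧ b3 ≤ A) (g4 : 0 ≤ b4 ∧ b4 ≤ A)
    (x y : Fin 4) : 0 ≤ tab a1 a2 a3 a4 b1 b2 b3 b4 x y ∧ tab a1 a2 a3 a4 b1 b2 b3 b4 x y ≤ A := by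
  have h0 : (0 : ℝ) ≤ 0 ∧ (0 : ℝ) ≤ A := ⟨le_rfl, hA⟩
  fin_cases x <;> fin_cases y
  · exact h0
  · exact h0
  · exact h1
  · exact h3
  · exact h0
  · exact h0
  · exact h2
  · exact h4
  · exact g1
  · exact g2
  · exact h0
  · exact h0
  · exact g3
  · exact g4
  · exact h0
  · exact h0

theorem raw_of_sol {α β : ℝ} {p q : Fin 4 → ℝ} (hp : p 1 - p 0 ≠ 0) (hq : q 1 - q 0 ≠ 0)
    (h : Sol 16 α β ((2 * p 2 - p 0 - p 1) / (p 1 - p 0)) ((2 * p 3 - p 0 - p 1) / (p 1 - p 0))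
      ((2 * q 2 - q 0 - q 1) / (q 1 - q 0)) ((2 * q 3 - q 0 - q 1) / (q 1 - q 0))) :
    Raw α β p q := by
  obtain ⟨a1, a2, a3, a4, b1, b2, b3, b4, h1, h2, h3, h4, g1, g2, g3, g4, hD⟩ := h
  refine ⟨tab a1 a2 a3 a4 b1 b2 b3 b4, tab_mem (by norm_num) h1 h2 h3 h4 g1 g2 g3 g4, ?_⟩
  have e02 : tab a1 a2 a3 a4 b1 b2 b3 b4 0 2 = a1 := rfl
  have e12 : tab a1 a2 a3 a4 b1 b2 b3 b4 1 2 = a2 := rfl
  have e03 : tab a1 a2 a3 a4 b1 b2 b3 b4 0 3 = a3 := rfl
  have e13 : tab a1 a2 a3 a4 b1 b2 b3 b4 1 3 = a4 := rfl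
  have e20 : tab a1 a2 a3 a4 b1 b2 b3 b4 2 0 = b1 := rfl
  have e21 : tab a1 a2 a3 a4 b1 b2 b3 b4 2 1 = b2 := rfl
  have e30 : tab a1 a2 a3 a4 b1 b2 b3 b4 3 0 = b3 := rfl
  have e31 : tab a1 a2 a3 a4 b1 b2 b3 b4 3 1 = b4 := rfl
  rw [cov_mass, e02, e12, e03, e13, e20, e21, e30, e31]
  set d := p 1 - p 0 with hd
  set e := q 1 - q 0 with he
  set P2 := (2 * p 2 - p 0 - p 1) / d with hP2
  set P3 := (2 * p 3 - p 0 - p 1) / d with hP3
  set Q2 := (2 * q 2 - q 0 - q 1) / e with hQ2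
  set Q3 := (2 * q 3 - q 0 - q 1) / e with hQ3
  have k1 : p 1 = p 0 + d := by rw [hd]; ring
  have k2 : p 2 = p 0 + d / 2 + d / 2 * P2 := by rw [hP2]; field_simp; rw [hd]; ring
  have k3 : p 3 = p 0 + d / 2 + d / 2 * P3 := by rw [hP3]; field_simp; rw [hd]; ring
  have l1 : q 1 = q 0 + e := by rw [he]; ring
  have l2 : q 2 = q 0 + e / 2 + e / 2 * Q2 := by rw [hQ2]; field_simp; rw [he]; ring
  have l3 : q 3 = q 0 + e / 2 + e / 2 * Q3 := by rw [hQ3]; field_simp; rw [he]; ring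
  clear_value d e P2 P3 Q2 Q3
  rw [k1, k2, k3, l1, l2, l3]
  unfold D at hD
  linear_combination (d * e / 4) * hD

theorem core_raw (p q : Fin 4 → ℝ) : (Raw 1 0 p q ∧ Raw 0 1 p q) ∨ Raw 1 1 p q := by
  by_cases hp : p 1 - p 0 = 0
  · left
    have hp' : p 1 = p 0 := by linarith
    constructor
    · refine ⟨tab (1 / 4) 0 0 0 (1 / 8) (1 / 8) 0 0, tab_mem (by norm_num) (by norm_num)
        (by norm_num) (by norm_num) (by norm_num) (by norm_num) (by norm_num) (by norm_num)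
        (by norm_num), ?_⟩
      rw [cov_mass, hp']
      simp only [tab, Matrix.cons_val]
      ring
    · refine ⟨tab 0 0 (1 / 4) 0 0 0 (1 / 8) (1 / 8), tab_mem (by norm_num) (by norm_num)
        (by norm_num) (by norm_num) (by norm_num) (by norm_num) (by norm_num) (by norm_num)
        (by norm_num), ?_⟩
      rw [cov_mass, hp']
      simp only [tab, Matrix.cons_val]
      ring
  by_cases hq : q 1 - q 0 = 0
  · left
    have hq' : q 1 = q 0 := by linarith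
    constructor
    · refine ⟨tab (1 / 8) (1 / 8) 0 0 (1 / 4) 0 0 0, tab_mem (by norm_num) (by norm_num)
        (by norm_num) (by norm_num) (by norm_num) (by norm_num) (by norm_num) (by norm_num)
        (by norm_num), ?_⟩
      rw [cov_mass, hq']
      simp only [tab, Matrix.cons_val]
      ring
    · refine ⟨tab 0 0 (1 / 8) (1 / 8) 0 0 (1 / 4) 0, tab_mem (by norm_num) (by norm_num)
        (by norm_num) (by norm_num) (by norm_num) (by norm_num) (by norm_num) (by norm_num)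
        (by norm_num), ?_⟩
      rw [cov_mass, hq']
      simp only [tab, Matrix.cons_val]
      ring
  rcases core ((2 * p 2 - p 0 - p 1) / (p 1 - p 0)) ((2 * p 3 - p 0 - p 1) / (p 1 - p 0))
      ((2 * q 2 - q 0 - q 1) / (q 1 - q 0)) ((2 * q 3 - q 0 - q 1) / (q 1 - q 0)) with h | h
  · exact Or.inl ⟨raw_of_sol hp hq h.1, raw_of_sol hp hq h.2⟩
  · exact Or.inr (raw_of_sol hp hq h)

end Pool.Agent.N226.BI
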